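import Mathlib

/-! The group ring of an abelian group over the polynomials of a free subgroup. -/

set_option autoImplicit false
set_option linter.unusedSectionVars false
set_option linter.unusedSimpArgs false

namespace Pool.Agent.H227R3.RM

open MvPolynomial

variable {A D : Type} [CommGroup A] [Fintype D] [DecidableEq D]
  (ε : Multiplicative (D → ℤ) →* A)

/-- the monomial of a group element -/
noncomputable abbrev mx (a : A) : MonoidAlgebra ℤ A := MonoidAlgebra.single a 1

/-- exponent vectors -/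
def ek (k : D →₀ ℕ) : A := ε (Multiplicative.ofAdd fun d => (k d : ℤ))

theorem ek_add (k l : D →₀ ℕ) : ek ε (k + l) = ek ε k * ek ε l := by
  unfold ek
  rw [← map_mul, ← ofAdd_add]
  congr 2

theorem ek_zero : ek ε (0 : D →₀ ℕ) = 1 := by
  unfold ek
  rw [← map_one ε]
  congr 1

theorem ek_single (d : D) (e : ℕ) :
    ek ε (Finsupp.single d e) = ε (Multiplicative.ofAdd (Pi.single d 1)) ^ e := by
  unfold ek
  rw [← map_pow, ← ofAdd_nsmul]
  congr 2
  funext d'
  by_cases h : d = d'
  · subst h; simp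
  · simp [Finsupp.single_apply, h, Pi.single_apply, Ne.symm h]

theorem ek_inj (hε : Function.Injective ε) : Function.Injective (ek ε) := by
  intro k l h
  have h1 := hε h
  have h2 := congrArg Multiplicative.toAdd h1
  ext d
  have h3 := congrFun h2 d
  simpa using h3

/-- polynomials in the group ring -/
noncomputable def io : MvPolynomial D ℤ →+* MonoidAlgebra ℤ A :=
  MvPolynomial.eval₂Hom (Int.castRingHom _) (fun d => mx (ε (Multiplicative.ofAdd (Pi.single d 1))))

theorem io_C (c : ℤ) : io ε (C c) = MonoidAlgebra.single 1 c := by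
  unfold io
  rw [MvPolynomial.coe_eval₂Hom, MvPolynomial.eval₂_C]
  simp [MonoidAlgebra.intCast_def]

theorem io_monomial_one (k : D →₀ ℕ) : io ε (monomial k 1) = mx (ek ε k) := by
  induction k using Finsupp.induction_linear with
  | zero =>
    rw [ek_zero]
    exact io_C ε 1
  | add k l hk hl =>
    have h1 : (monomial (k + l) (1 : ℤ)) = monomial k 1 * monomial l 1 := by
      rw [monomial_mul, mul_one]
    rw [h1, map_mul, hk, hl, MonoidAlgebra.single_mul_single, ek_add, mul_one]
  | single d e =>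
    have h1 : (monomial (Finsupp.single d e) (1 : ℤ)) = X d ^ e := by
      rw [X_pow_eq_monomial]
    rw [h1, map_pow, ek_single]
    unfold io
    rw [MvPolynomial.coe_eval₂Hom, MvPolynomial.eval₂_X, MonoidAlgebra.single_pow, one_pow]

theorem io_monomial (k : D →₀ ℕ) (c : ℤ) : io ε (monomial k c) = MonoidAlgebra.single (ek ε k) c := by
  have h1 : (monomial k c) = C c * monomial k 1 := by
    rw [C_mul_monomial, mul_one]
  rw [h1, map_mul, io_C, io_monomial_one, MonoidAlgebra.single_mul_single, one_mul, mul_one]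

theorem coeff_io (hε : Function.Injective ε) (t : A) (p : MvPolynomial D ℤ) (k : D →₀ ℕ) :
    (mx t * io ε p).coeff (t * ek ε k) = p.coeff k := by
  classical
  induction p using MvPolynomial.induction_on' with
  | monomial u a =>
    rw [io_monomial, MonoidAlgebra.single_mul_single, one_mul, MonoidAlgebra.coeff_single, Finsupp.single_apply,
      MvPolynomial.coeff_monomial]
    have : (t * ek ε u = t * ek ε k) ↔ u = k := by
      rw [mul_right_inj]
      exact (ek_inj ε hε).eq_iff
    simp only [this]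
  | add p q hp hq =>
    rw [map_add, mul_add, MonoidAlgebra.coeff_add, Finsupp.add_apply, hp, hq, MvPolynomial.coeff_add]

theorem coeff_io_ne (t b : A) (p : MvPolynomial D ℤ) (hb : ∀ k, t * ek ε k ≠ b) :
    (mx t * io ε p).coeff b = 0 := by
  classical
  induction p using MvPolynomial.induction_on' with
  | monomial u a =>
    rw [io_monomial, MonoidAlgebra.single_mul_single, one_mul, MonoidAlgebra.coeff_single, Finsupp.single_apply,
      if_neg (hb u)]
  | add p q hp hq =>
    rw [map_add, mul_add, MonoidAlgebra.coeff_add, Finsupp.add_apply, hp, hq, add_zero]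

/-- different cosets -/
def Ind (T : Finset A) : Prop :=
  ∀ t ∈ T, ∀ t' ∈ T, t ≠ t' → ∀ k k' : D →₀ ℕ, t * ek ε k ≠ t' * ek ε k'

theorem uniq (hε : Function.Injective ε) {T : Finset A} (hT : Ind ε T)
    (p : A → MvPolynomial D ℤ) (h : ∑ t ∈ T, mx t * io ε (p t) = 0) : ∀ t ∈ T, p t = 0 := by
  intro t ht
  ext k
  have h1 : (∑ t ∈ T, mx t * io ε (p t)).coeff (t * ek ε k) = 0 := by rw [h]; rfl
  rw [MonoidAlgebra.coeff_sum, Finsupp.finsetSum_apply, Finset.sum_eq_single t] at h1
  · rw [coeff_io ε hε] at h1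
    rw [h1, MvPolynomial.coeff_zero]
  · intro t' ht' hne
    exact coeff_io_ne ε _ _ _ (fun k' => hT t' ht' t ht hne k' k)
  · intro h2; exact absurd ht h2

theorem exists_dec (F : Finset A) : ∃ (T : Finset A) (τ : A → A) (k : A → (D →₀ ℕ)),
    Ind ε T ∧ ∀ a ∈ F, τ a ∈ T ∧ a = τ a * ek ε (k a) := by
  classical
  let σ : A → A := fun a => (Quotient.out (QuotientGroup.mk (s := ε.range) a) : A)
  have hσ : ∀ a, (QuotientGroup.mk (s := ε.range) (σ a)) = QuotientGroup.mk a := fun a =>
    Quotient.out_eq _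
  have hw : ∀ a, ∃ w : D → ℤ, ε (Multiplicative.ofAdd w) = (σ a)⁻¹ * a := by
    intro a
    have h1 := QuotientGroup.eq.1 (hσ a)
    obtain ⟨w, hw⟩ := h1
    exact ⟨Multiplicative.toAdd w, hw⟩
  choose w hw using hw
  obtain ⟨N, hN⟩ : ∃ N : ℕ, ∀ a ∈ F, ∀ d, -(N : ℤ) ≤ w a d := by
    refine ⟨∑ a ∈ F, ∑ d, (w a d).natAbs, fun a ha d => ?_⟩
    have h1 : (w a d).natAbs ≤ ∑ a ∈ F, ∑ d, (w a d).natAbs := by
      refine le_trans ?_ (Finset.single_le_sum (f := fun a => ∑ d, (w a d).natAbs)
        (fun _ _ => Nat.zero_le _) ha)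
      exact Finset.single_le_sum (f := fun d => (w a d).natAbs) (fun _ _ => Nat.zero_le _)
        (Finset.mem_univ d)
    omega
  let τ : A → A := fun a => σ a * ε (Multiplicative.ofAdd fun _ => -(N : ℤ))
  have hτc : ∀ a, (QuotientGroup.mk (s := ε.range) (τ a)) = QuotientGroup.mk a := by
    intro a
    rw [← hσ a, QuotientGroup.eq]
    refine ⟨(Multiplicative.ofAdd fun _ => -(N : ℤ))⁻¹, ?_⟩
    show _ = (σ a * ε (Multiplicative.ofAdd fun _ => -(N : ℤ)))⁻¹ * σ a
    rw [map_inv, mul_inv]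
    simp [mul_comm, mul_left_comm]
  let k : A → (D →₀ ℕ) := fun a => Finsupp.equivFunOnFinite.symm fun d => (w a d + N).toNat
  refine ⟨F.image τ, τ, k, ?_, ?_⟩
  · intro t ht t' ht' hne k k' hk
    rw [Finset.mem_image] at ht ht'
    obtain ⟨a, ha, rfl⟩ := ht
    obtain ⟨a', ha', rfl⟩ := ht'
    apply hne
    have h1 : (QuotientGroup.mk (s := ε.range) a) = QuotientGroup.mk a' := by
      rw [← hτc a, ← hτc a', QuotientGroup.eq]
      have h2 : (τ a)⁻¹ * τ a' = ek ε k * (ek ε k')⁻¹ := by
        rw [eq_mul_inv_iff_mul_eq, mul_assoc, ← hk]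
        group
      rw [h2]
      exact ε.range.mul_mem ⟨_, rfl⟩ (ε.range.inv_mem ⟨_, rfl⟩)
    show σ a * _ = σ a' * _
    simp only [σ, h1]
  · intro a ha
    refine ⟨Finset.mem_image_of_mem _ ha, ?_⟩
    show a = σ a * ε (Multiplicative.ofAdd fun _ => -(N : ℤ)) * ek ε (k a)
    unfold ek
    rw [mul_assoc, ← map_mul, ← ofAdd_add]
    have : ((fun _ => -(N : ℤ)) + fun d => ((k a d : ℕ) : ℤ)) = w a := by
      funext d
      have := hN a ha d
      simp only [Pi.add_apply, k, Finsupp.equivFunOnFinite_symm_apply_apply]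
      omega
    rw [this, hw]
    group

theorem exists_rep {F T : Finset A} {τ : A → A} {k : A → (D →₀ ℕ)}
    (h : ∀ a ∈ F, τ a ∈ T ∧ a = τ a * ek ε (k a)) (s : MonoidAlgebra ℤ A)
    (hs : s.coeff.support ⊆ F) :
    ∃ p : A → MvPolynomial D ℤ, s = ∑ t ∈ T, mx t * io ε (p t) := by
  classical
  refine ⟨fun t => ∑ a ∈ F.filter (fun a => τ a = t), monomial (k a) (s.coeff a), ?_⟩
  have h1 : ∀ t ∈ T, mx t * io ε (∑ a ∈ F.filter (fun a => τ a = t), monomial (k a) (s.coeff a)) =
      ∑ a ∈ F.filter (fun a => τ a = t), MonoidAlgebra.single a (s.coeff a) := by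
    intro t _
    rw [map_sum, Finset.mul_sum]
    refine Finset.sum_congr rfl (fun a ha => ?_)
    rw [Finset.mem_filter] at ha
    rw [io_monomial, MonoidAlgebra.single_mul_single, one_mul, ← ha.2, ← (h a ha.1).2]
  rw [Finset.sum_congr rfl h1, Finset.sum_fiberwise_of_maps_to (fun a ha => (h a ha).1)]
  conv_lhs => rw [← MonoidAlgebra.sum_coeff_single s]
  rw [Finsupp.sum]
  refine Finset.sum_subset hs (fun a _ ha => ?_)
  rw [Finsupp.notMem_support_iff] at ha
  rw [ha, MonoidAlgebra.single_zero]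

theorem fact1 (hε : Function.Injective ε) {f g : MvPolynomial D ℤ} (hf : Prime f) (hg : ¬ f ∣ g)
    {b s : MonoidAlgebra ℤ A} (h : io ε g * b = io ε f * s) : ∃ s', b = io ε f * s' := by
  classical
  obtain ⟨T, τ, k, hT, hF⟩ := exists_dec ε (b.coeff.support ∪ s.coeff.support)
  obtain ⟨p, hp⟩ := exists_rep ε hF b Finset.subset_union_left
  obtain ⟨r, hr⟩ := exists_rep ε hF s Finset.subset_union_right
  have h1 : ∑ t ∈ T, mx t * io ε (g * p t - f * r t) = 0 := by
    have h2 : ∀ t ∈ T, mx t * io ε (g * p t - f * r t) =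
        io ε g * (mx t * io ε (p t)) - io ε f * (mx t * io ε (r t)) := by
      intro t _
      rw [map_sub, map_mul, map_mul]
      ring
    rw [Finset.sum_congr rfl h2, Finset.sum_sub_distrib, ← Finset.mul_sum, ← Finset.mul_sum,
      ← hp, ← hr, h, sub_self]
  have h3 := uniq ε hε hT _ h1
  have h4 : ∀ t, ∃ q, t ∈ T → p t = f * q := by
    intro t
    by_cases ht : t ∈ T
    · have h5 : g * p t = f * r t := sub_eq_zero.1 (h3 t ht)
      have h6 : f ∣ g * p t := ⟨_, h5⟩
      obtain ⟨q, hq⟩ := (hf.dvd_or_dvd h6).resolve_left hg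
      exact ⟨q, fun _ => hq⟩
    · exact ⟨0, fun h => absurd h ht⟩
  choose q hq using h4
  refine ⟨∑ t ∈ T, mx t * io ε (q t), ?_⟩
  rw [hp, Finset.mul_sum]
  refine Finset.sum_congr rfl (fun t ht => ?_)
  rw [hq t ht, map_mul]
  ring

theorem fact2 (hε : Function.Injective ε) {f : MvPolynomial D ℤ} (hf : f ≠ 0)
    {s : MonoidAlgebra ℤ A} (h : io ε f * s = 0) : s = 0 := by
  classical
  obtain ⟨T, τ, k, hT, hF⟩ := exists_dec ε s.coeff.support
  obtain ⟨r, hr⟩ := exists_rep ε hF s subset_rfl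
  have h1 : ∑ t ∈ T, mx t * io ε (f * r t) = 0 := by
    have h2 : ∀ t ∈ T, mx t * io ε (f * r t) = io ε f * (mx t * io ε (r t)) := by
      intro t _
      rw [map_mul]
      ring
    rw [Finset.sum_congr rfl h2, ← Finset.mul_sum, ← hr, h]
  have h3 := uniq ε hε hT _ h1
  rw [hr]
  refine Finset.sum_eq_zero (fun t ht => ?_)
  have h4 := (mul_eq_zero.1 (h3 t ht)).resolve_left hf
  rw [h4, map_zero, mul_zero]

end Pool.Agent.H227R3.RM
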