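import Pool.Agent.H227R3.RM.Core
import Pool.Agent.H227R3.RM.Dec

/-! Saturation of row spaces over the group ring of an abelian group. -/

set_option autoImplicit false

namespace Pool.Agent.H227R3.RM

open MvPolynomial

variable {A D : Type} [CommGroup A] [Fintype D] [DecidableEq D]
  (ε : Multiplicative (D → ℤ) →* A)

instance [Group.FG A] : IsNoetherianRing (MonoidAlgebra ℤ A) := by
  have : Monoid.FG A := Group.fg_iff_monoid_fg.1 inferInstance
  exact Algebra.FiniteType.isNoetherianRing ℤ (MonoidAlgebra ℤ A)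

theorem step [Group.FG A] (hε : Function.Injective ε) {m n : ℕ}
    (R : Fin m → Fin n → MonoidAlgebra ℤ A)
    (hR : ∀ (K : Type) [Field K] (ρ : MonoidAlgebra ℤ A →+* K) (f : MvPolynomial D ℤ),
      Irreducible f → RingHom.ker (ρ.comp (io ε)) = Ideal.span {f} →
        LinearIndependent K (fun j => fun l => ρ (R j l)))
    {f : MvPolynomial D ℤ} (hf : Prime f) (x : Fin n → MonoidAlgebra ℤ A)
    (y : Fin m → MonoidAlgebra ℤ A) (h : ∀ l, io ε f * x l = ∑ j, y j * R j l) :
    ∃ y' : Fin m → MonoidAlgebra ℤ A, ∀ l, x l = ∑ j, y' j * R j l := by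
  classical
  have key : ∀ j, ∃ y', y j = io ε f * y' := by
    by_contra hcon
    push Not at hcon
    obtain ⟨j0, hj0⟩ := hcon
    let I : Ideal (MonoidAlgebra ℤ A) := Ideal.span {io ε f}
    let B := MonoidAlgebra ℤ A ⧸ I
    have hy : (fun j => Ideal.Quotient.mk I (y j)) ≠ 0 := by
      intro h0
      have h1 := congrFun h0 j0
      have h2 : y j0 ∈ I := Ideal.Quotient.eq_zero_iff_mem.1 h1
      obtain ⟨c, hc⟩ := Ideal.mem_span_singleton.1 h2
      exact hj0 c hc
    have hrel : ∀ l, ∑ j, Ideal.Quotient.mk I (y j) * Ideal.Quotient.mk I (R j l) = 0 := by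
      intro l
      have h1 : Ideal.Quotient.mk I (∑ j, y j * R j l) = 0 := by
        rw [← h l, Ideal.Quotient.eq_zero_iff_mem]
        exact I.mul_mem_right _ (Ideal.mem_span_singleton_self _)
      rw [map_sum] at h1
      simpa only [map_mul] using h1
    obtain ⟨P, hP, z, hz, hmem, hnot⟩ := core (fun j l => Ideal.Quotient.mk I (R j l))
      (fun j => Ideal.Quotient.mk I (y j)) hy hrel
    let ρ : MonoidAlgebra ℤ A →+* FractionRing (B ⧸ P) :=
      ((algebraMap (B ⧸ P) (FractionRing (B ⧸ P))).comp (Ideal.Quotient.mk P)).comp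
        (Ideal.Quotient.mk I)
    refine hnot (hR (FractionRing (B ⧸ P)) ρ f hf.irreducible ?_)
    ext g
    rw [RingHom.mem_ker, Ideal.mem_span_singleton]
    have h1 : (ρ.comp (io ε)) g = 0 ↔ Ideal.Quotient.mk I (io ε g) ∈ P := by
      show algebraMap (B ⧸ P) (FractionRing (B ⧸ P))
        (Ideal.Quotient.mk P (Ideal.Quotient.mk I (io ε g))) = 0 ↔ _
      rw [← Ideal.Quotient.eq_zero_iff_mem]
      constructor
      · intro h0
        exact IsFractionRing.injective (B ⧸ P) (FractionRing (B ⧸ P)) (by rw [h0, map_zero])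
      · intro h0
        rw [h0, map_zero]
    rw [h1]
    constructor
    · intro hg
      by_contra hfg
      apply hz
      funext j
      obtain ⟨z0, hz0⟩ := Ideal.Quotient.mk_surjective (z j)
      have h2 := (hmem _).1 hg j
      rw [← hz0, ← map_mul, Ideal.Quotient.eq_zero_iff_mem] at h2
      obtain ⟨s, hs⟩ := Ideal.mem_span_singleton.1 h2
      obtain ⟨s', hs'⟩ := fact1 ε hε hf hfg hs
      rw [← hz0, Pi.zero_apply, Ideal.Quotient.eq_zero_iff_mem, hs']
      exact I.mul_mem_right _ (Ideal.mem_span_singleton_self _)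
    · rintro ⟨q, rfl⟩
      have h2 : Ideal.Quotient.mk I (io ε (f * q)) = 0 := by
        rw [Ideal.Quotient.eq_zero_iff_mem, map_mul]
        exact I.mul_mem_right _ (Ideal.mem_span_singleton_self _)
      rw [h2]
      exact P.zero_mem
  choose y' hy' using key
  refine ⟨y', fun l => ?_⟩
  have h1 : io ε f * (x l - ∑ j, y' j * R j l) = 0 := by
    rw [mul_sub, h l, Finset.mul_sum, sub_eq_zero]
    refine Finset.sum_congr rfl (fun j _ => ?_)
    rw [hy' j]
    ring
  exact sub_eq_zero.1 (fact2 ε hε hf.ne_zero h1)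

theorem saturation [Group.FG A] (hε : Function.Injective ε) {m n : ℕ}
    (R : Fin m → Fin n → MonoidAlgebra ℤ A)
    (hR : ∀ (K : Type) [Field K] (ρ : MonoidAlgebra ℤ A →+* K) (f : MvPolynomial D ℤ),
      Irreducible f → RingHom.ker (ρ.comp (io ε)) = Ideal.span {f} →
        LinearIndependent K (fun j => fun l => ρ (R j l)))
    (a : MvPolynomial D ℤ) (ha : a ≠ 0) : ∀ (x : Fin n → MonoidAlgebra ℤ A)
    (y : Fin m → MonoidAlgebra ℤ A), (∀ l, io ε a * x l = ∑ j, y j * R j l) →
    ∃ y' : Fin m → MonoidAlgebra ℤ A, ∀ l, x l = ∑ j, y' j * R j l := by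
  classical
  induction a using UniqueFactorizationMonoid.induction_on_prime with
  | h₁ => exact absurd rfl ha
  | h₂ u hu =>
    intro x y h
    obtain ⟨w, hw⟩ := hu.map (io ε)
    refine ⟨fun j => (↑w⁻¹ : MonoidAlgebra ℤ A) * y j, fun l => ?_⟩
    have h1 : x l = (↑w⁻¹ : MonoidAlgebra ℤ A) * (io ε u * x l) := by
      rw [← hw, ← mul_assoc, Units.inv_mul, one_mul]
    rw [h1, h l, Finset.mul_sum]
    refine Finset.sum_congr rfl (fun j _ => ?_)
    ring
  | h₃ b p hb hp ih =>
    intro x y h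
    obtain ⟨y1, hy1⟩ := step ε hε R hR hp (fun l => io ε b * x l) y (fun l => by
      rw [← h l, map_mul]; ring)
    exact ih hb x y1 hy1

end Pool.Agent.H227R3.RM
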