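import Mathlib

/-! Associated primes and dependent rows. -/

set_option autoImplicit false

namespace Pool.Agent.H227R3.RM

theorem core {B : Type} [CommRing B] [IsNoetherianRing B] {m n : ℕ} (R : Fin m → Fin n → B)
    (y : Fin m → B) (hy : y ≠ 0) (h : ∀ l, ∑ j, y j * R j l = 0) :
    ∃ (P : Ideal B) (_ : P.IsPrime) (z : Fin m → B), z ≠ 0 ∧ (∀ b, b ∈ P ↔ ∀ j, b * z j = 0) ∧
      ¬ LinearIndependent (FractionRing (B ⧸ P)) (fun j => fun l =>
        algebraMap (B ⧸ P) (FractionRing (B ⧸ P)) (Ideal.Quotient.mk P (R j l))) := by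
  classical
  let M : Submodule B (Fin m → B) := Submodule.span B {y}
  let x0 : M := ⟨y, Submodule.mem_span_singleton_self y⟩
  have hx0 : x0 ≠ 0 := fun h0 => hy (congrArg Subtype.val h0)
  obtain ⟨P, hP, -⟩ := exists_le_isAssociatedPrime_of_isNoetherianRing B x0 hx0
  rw [isAssociatedPrime_iff] at hP
  obtain ⟨hPp, w, hw⟩ := hP
  have hmem : ∀ b, b ∈ P ↔ ∀ j, b * w.1 j = 0 := by
    intro b
    rw [hw, Submodule.mem_colon_singleton, Submodule.mem_bot]
    constructor
    · intro hb j
      exact congrFun (congrArg Subtype.val hb) j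
    · intro hb
      exact Subtype.ext (funext hb)
  have hwne : w.1 ≠ 0 := by
    intro h0
    apply hPp.ne_top
    rw [Ideal.eq_top_iff_one, hmem]
    intro j
    rw [h0]
    simp
  have hrel : ∀ l, ∑ j, w.1 j * R j l = 0 := by
    intro l
    obtain ⟨c, hc⟩ := Submodule.mem_span_singleton.1 w.2
    rw [← hc]
    have : ∑ j, (c • y) j * R j l = c * ∑ j, y j * R j l := by
      rw [Finset.mul_sum]
      refine Finset.sum_congr rfl (fun j _ => ?_)
      rw [Pi.smul_apply, smul_eq_mul]
      ring
    rw [this, h l, mul_zero]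
  refine ⟨P, hPp, w.1, hwne, hmem, fun hLI => ?_⟩
  set K := FractionRing (B ⧸ P) with hK
  set Rt : Fin m → Fin n → K := fun j => fun l => algebraMap (B ⧸ P) K (Ideal.Quotient.mk P (R j l))
    with hRt
  have hinj : LinearMap.ker (Fintype.linearCombination K Rt) = ⊥ :=
    LinearMap.ker_eq_bot.2 (linearIndependent_iff_injective_fintypeLinearCombination.1 hLI)
  obtain ⟨g, hg⟩ := LinearMap.exists_leftInverse_of_injective _ hinj
  have hQ : ∀ j j', ∑ l, Rt j l * g (Pi.single l 1) j' = if j = j' then 1 else 0 := by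
    intro j j'
    have h1 : g (Fintype.linearCombination K Rt (Pi.single j 1)) = Pi.single j 1 := by
      rw [← LinearMap.comp_apply, hg]; rfl
    have h2 : Fintype.linearCombination K Rt (Pi.single j 1) = Rt j := by
      rw [Fintype.linearCombination_apply]
      rw [Finset.sum_eq_single j]
      · simp
      · intro b _ hb
        simp [hb]
      · simp
    rw [h2] at h1
    have h3 : Rt j = ∑ l, Rt j l • (Pi.single l (1 : K) : Fin n → K) := by
      funext l
      rw [Finset.sum_apply]
      simp [Pi.single_apply]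
    rw [h3, map_sum] at h1
    have h4 := congrFun h1 j'
    rw [Finset.sum_apply] at h4
    simp only [map_smul, Pi.smul_apply, smul_eq_mul] at h4
    rw [h4, Pi.single_apply]
    simp only [eq_comm]
  obtain ⟨d, hd⟩ := IsLocalization.exist_integer_multiples_of_finite (nonZeroDivisors (B ⧸ P))
    (fun p : Fin n × Fin m => g (Pi.single p.1 1) p.2)
  choose Q' hQ' using hd
  obtain ⟨d0, hd0⟩ := Ideal.Quotient.mk_surjective (d : B ⧸ P)
  have hlift : ∀ p, ∃ q, Ideal.Quotient.mk P q = Q' p := fun p => Ideal.Quotient.mk_surjective _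
  choose Q0 hQ0 using hlift
  have hP0 : ∀ j j', (∑ l, R j l * Q0 (l, j')) - (if j = j' then d0 else 0) ∈ P := by
    intro j j'
    rw [← Ideal.Quotient.eq_zero_iff_mem]
    apply IsFractionRing.injective (B ⧸ P) K
    rw [map_zero, map_sub, map_sub, map_sum, map_sum]
    have h1 : ∀ l, algebraMap (B ⧸ P) K (Ideal.Quotient.mk P (R j l * Q0 (l, j'))) =
        algebraMap (B ⧸ P) K (d : B ⧸ P) * (Rt j l * g (Pi.single l 1) j') := by
      intro l
      rw [map_mul, map_mul, hQ0, hQ' (l, j'), Algebra.smul_def]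
      simp only [hRt]
      ring
    rw [Finset.sum_congr rfl (fun l _ => h1 l), ← Finset.mul_sum, hQ j j']
    split_ifs
    · rw [hd0, mul_one, sub_self]
    · rw [map_zero, map_zero, mul_zero, sub_zero]
  have hd0P : d0 ∈ P := by
    rw [hmem]
    intro j'
    have h1 : ∑ j, w.1 j * ((∑ l, R j l * Q0 (l, j')) - (if j = j' then d0 else 0)) = 0 := by
      refine Finset.sum_eq_zero (fun j _ => ?_)
      rw [mul_comm]
      exact (hmem _).1 (hP0 j j') j
    have h2 : ∑ j, w.1 j * ((∑ l, R j l * Q0 (l, j')) - (if j = j' then d0 else 0)) =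
        (∑ l, (∑ j, w.1 j * R j l) * Q0 (l, j')) - d0 * w.1 j' := by
      simp only [mul_sub, Finset.sum_sub_distrib]
      congr 1
      · simp only [Finset.mul_sum, Finset.sum_mul]
        rw [Finset.sum_comm]
        refine Finset.sum_congr rfl (fun l _ => Finset.sum_congr rfl (fun j _ => ?_))
        ring
      · rw [Finset.sum_eq_single j']
        · simp [mul_comm]
        · intro b _ hb
          simp [hb]
        · simp
    rw [h2] at h1
    simp only [hrel, zero_mul, Finset.sum_const_zero, zero_sub, neg_eq_zero] at h1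
    exact h1
  have hd1 : (d : B ⧸ P) = 0 := by
    rw [← hd0]
    exact Ideal.Quotient.eq_zero_iff_mem.2 hd0P
  exact nonZeroDivisors.coe_ne_zero d hd1

end Pool.Agent.H227R3.RM
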