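import Pool.Agent.H577R3.RM.Stmts
import Pool.Agent.H227R3.RM.Alg

/-! Task TFALG. -/

set_option autoImplicit false

namespace Pool.Agent.H577R3.RM

open Pool.Agent.Helper777.Prof Pool.Agent.H577R3
open Pool.Agent.H227R3.RM (mx ek io io_monomial)

namespace TF

variable {n m : ℕ} (v : Fin m → Fin n → ℤ) (C : Finset (Fin n))

/-- the subgroup generated by the vectors -/
def HH : Subgroup (Zm n) := Subgroup.closure (Set.range fun j => Multiplicative.ofAdd (v j))

/-- the quotient -/
abbrev AA : Type := Zm n ⧸ HH v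

instance : Group.FG (AA v) := by
  have h1 : AddGroup.FG (Fin n → ℤ) := by
    rw [← Module.Finite.iff_addGroup_fg]
    infer_instance
  have h2 : Group.FG (Zm n) := inferInstance
  exact QuotientGroup.fg (HH v)

/-- extension by zero -/
def ext0 : ({c // c ∈ C} → ℤ) →+ (Fin n → ℤ) where
  toFun w l := if h : l ∈ C then w ⟨l, h⟩ else 0
  map_zero' := by funext l; simp
  map_add' w w' := by
    funext l
    by_cases h : l ∈ C <;> simp [h]

/-- the free subgroup -/
def ep : Multiplicative ({c // c ∈ C} → ℤ) →* AA v :=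
  (QuotientGroup.mk' (HH v)).comp (AddMonoidHom.toMultiplicative (ext0 C))

/-- the projection -/
noncomputable def pr : Lam n →+* MonoidAlgebra ℤ (AA v) :=
  MonoidAlgebra.mapDomainRingHom ℤ (QuotientGroup.mk' (HH v))

theorem pr_single (u : Zm n) (c : ℤ) :
    pr v (MonoidAlgebra.single u c) = MonoidAlgebra.single (QuotientGroup.mk' (HH v) u) c := by
  unfold pr
  simp

theorem pr_surj : Function.Surjective (pr v) := by
  intro s
  induction s using MonoidAlgebra.induction_linear with
  | zero => exact ⟨0, map_zero _⟩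
  | add x y hx hy =>
    obtain ⟨x', rfl⟩ := hx
    obtain ⟨y', rfl⟩ := hy
    exact ⟨x' + y', map_add _ _ _⟩
  | single a b =>
    obtain ⟨u, rfl⟩ := QuotientGroup.mk'_surjective (HH v) a
    exact ⟨MonoidAlgebra.single u b, pr_single v u b⟩

/-- the ideal -/
noncomputable abbrev JJ : Ideal (Lam n) := Ideal.span (Set.range fun j => X (v j) - 1)

theorem of_sub_one_mem (h : Zm n) (hh : h ∈ HH v) : MonoidAlgebra.of ℤ (Zm n) h - 1 ∈ JJ v := by
  unfold HH at hh
  induction hh using Subgroup.closure_induction with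
  | mem x hx =>
    obtain ⟨j, rfl⟩ := hx
    exact Ideal.subset_span ⟨j, rfl⟩
  | one => rw [map_one, sub_self]; exact (JJ v).zero_mem
  | mul a b _ _ ha hb =>
    have : MonoidAlgebra.of ℤ (Zm n) (a * b) - 1 = MonoidAlgebra.of ℤ (Zm n) a *
        (MonoidAlgebra.of ℤ (Zm n) b - 1) + (MonoidAlgebra.of ℤ (Zm n) a - 1) := by
      rw [map_mul]; ring
    rw [this]
    exact (JJ v).add_mem ((JJ v).mul_mem_left _ hb) ha
  | inv a _ ha =>
    have h1 : MonoidAlgebra.of ℤ (Zm n) a⁻¹ * MonoidAlgebra.of ℤ (Zm n) a = 1 := by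
      rw [← map_mul, inv_mul_cancel, map_one]
    have : MonoidAlgebra.of ℤ (Zm n) a⁻¹ - 1 = -(MonoidAlgebra.of ℤ (Zm n) a⁻¹ *
        (MonoidAlgebra.of ℤ (Zm n) a - 1)) := by
      rw [mul_sub, h1]; ring
    rw [this]
    exact (JJ v).neg_mem ((JJ v).mul_mem_left _ ha)

theorem pr_mem {x : Lam n} (hx : x ∈ JJ v) : pr v x = 0 := by
  have h : JJ v ≤ RingHom.ker (pr v) := by
    rw [Ideal.span_le]
    rintro _ ⟨j, rfl⟩
    show pr v (X (v j) - 1) = 0
    rw [map_sub, map_one, sub_eq_zero]
    show pr v (MonoidAlgebra.single _ 1) = 1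
    rw [pr_single]
    have h1 : QuotientGroup.mk' (HH v) (Multiplicative.ofAdd (v j)) = 1 :=
      (QuotientGroup.eq_one_iff _).2 (Subgroup.subset_closure ⟨j, rfl⟩)
    rw [h1]
    rfl
  exact h hx

/-- a section -/
noncomputable def sec (s : MonoidAlgebra ℤ (AA v)) : Lam n :=
  MonoidAlgebra.mapDomain (fun a : AA v => (Quotient.out a : Zm n)) s

theorem sub_sec_mem (x : Lam n) : x - sec v (pr v x) ∈ JJ v := by
  induction x using MonoidAlgebra.induction_linear with
  | zero =>
    rw [map_zero]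
    unfold sec
    rw [MonoidAlgebra.mapDomain_zero, sub_self]
    exact (JJ v).zero_mem
  | add x y hx hy =>
    have : x + y - sec v (pr v (x + y)) = (x - sec v (pr v x)) + (y - sec v (pr v y)) := by
      rw [map_add]
      unfold sec
      rw [MonoidAlgebra.mapDomain_add]
      ring
    rw [this]
    exact (JJ v).add_mem hx hy
  | single u c =>
    rw [pr_single]
    unfold sec
    rw [MonoidAlgebra.mapDomain_single]
    set w : Zm n := Quotient.out (QuotientGroup.mk' (HH v) u) with hw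
    have h1 : w⁻¹ * u ∈ HH v := by
      rw [← QuotientGroup.eq]
      exact Quotient.out_eq _
    have h2 := of_sub_one_mem v _ h1
    have h3 : (MonoidAlgebra.single u c : Lam n) - MonoidAlgebra.single w c =
        MonoidAlgebra.single w c * (MonoidAlgebra.of ℤ (Zm n) (w⁻¹ * u) - 1) := by
      rw [mul_sub, mul_one, MonoidAlgebra.of_apply, MonoidAlgebra.single_mul_single, mul_one,
        mul_inv_cancel_left]
    rw [h3]
    exact (JJ v).mul_mem_left _ h2

theorem mem_of_pr {x : Lam n} (hx : pr v x = 0) : x ∈ JJ v := by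
  have h := sub_sec_mem v x
  rw [hx] at h
  unfold sec at h
  rwa [MonoidAlgebra.mapDomain_zero, sub_zero] at h

theorem mon_eq {K : Type} [Field K] (Φ : Zm n →* Kˣ) (u : Zm n) :
    mon (fun l => Φ (zb l)) u = Φ u := by
  show ∏ l, Φ (zb l) ^ (Multiplicative.toAdd u l) = Φ u
  have h1 : u = ∏ l, zb l ^ (Multiplicative.toAdd u l) := by
    apply Multiplicative.toAdd.injective
    rw [toAdd_prod]
    funext l
    rw [Finset.sum_apply]
    simp [Pi.single_apply]
  conv_rhs => rw [h1]
  rw [map_prod]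
  refine Finset.prod_congr rfl (fun l _ => ?_)
  rw [map_zpow]

/-- the point of a ring homomorphism -/
noncomputable def ptH {K : Type} [Field K] (ρ : MonoidAlgebra ℤ (AA v) →+* K) : Zm n →* Kˣ :=
  (Units.map ((ρ : MonoidAlgebra ℤ (AA v) →* K).comp (MonoidAlgebra.of ℤ (AA v)))).comp
    ((toUnits : AA v ≃* (AA v)ˣ).toMonoidHom.comp (QuotientGroup.mk' (HH v)))

theorem ptH_val {K : Type} [Field K] (ρ : MonoidAlgebra ℤ (AA v) →+* K) (u : Zm n) :
    ((ptH v ρ u : Kˣ) : K) = ρ (MonoidAlgebra.single (QuotientGroup.mk' (HH v) u) 1) := rfl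

theorem evl_eq {K : Type} [Field K] (ρ : MonoidAlgebra ℤ (AA v) →+* K) (x : Lam n) :
    evl (fun l => ptH v ρ (zb l)) x = ρ (pr v x) := by
  have : evl (fun l => ptH v ρ (zb l)) = ρ.comp (pr v) := by
    refine MonoidAlgebra.ringHom_ext (fun r => ?_) (fun u => ?_)
    · show (MonoidAlgebra.lift ℤ K (Zm n) _) (MonoidAlgebra.single 1 r) = ρ (pr v _)
      rw [MonoidAlgebra.lift_single, pr_single, map_one, map_one]
      have h1 : (MonoidAlgebra.single (1 : AA v) r) = ((r : ℤ) : MonoidAlgebra ℤ (AA v)) := by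
        rw [MonoidAlgebra.intCast_def]; rfl
      rw [h1, map_intCast]
      simp
    · show (MonoidAlgebra.lift ℤ K (Zm n) _) (MonoidAlgebra.single u 1) = ρ (pr v _)
      rw [MonoidAlgebra.lift_single, pr_single, one_smul]
      show ((mon (fun l => ptH v ρ (zb l)) u : Kˣ) : K) = _
      rw [mon_eq, ptH_val]
  rw [this]
  rfl

theorem ext0_single (c : {c // c ∈ C}) : ext0 C (Pi.single c 1) = Pi.single c.1 1 := by
  funext l
  show (if h : l ∈ C then (Pi.single c (1 : ℤ) : {c // c ∈ C} → ℤ) ⟨l, h⟩ else 0) = _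
  by_cases h : l ∈ C
  · rw [dif_pos h]
    by_cases h2 : l = c.1
    · subst h2; simp
    · have h3 : (⟨l, h⟩ : {c // c ∈ C}) ≠ c := fun h4 => h2 (congrArg Subtype.val h4)
      rw [Pi.single_eq_of_ne h3, Pi.single_eq_of_ne h2]
  · rw [dif_neg h]
    have h2 : l ≠ c.1 := fun h3 => h (h3 ▸ c.2)
    rw [Pi.single_eq_of_ne h2]

theorem evC_eq {K : Type} [Field K] (ρ : MonoidAlgebra ℤ (AA v) →+* K) :
    evC C (fun l => ptH v ρ (zb l)) = ρ.comp (io (ep v C)) := by
  refine MvPolynomial.ringHom_ext (fun r => ?_) (fun c => ?_)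
  · unfold evC
    rw [MvPolynomial.coe_eval₂Hom, MvPolynomial.eval₂_C]
    simp
  · unfold evC
    rw [MvPolynomial.coe_eval₂Hom, MvPolynomial.eval₂_X, ptH_val]
    show _ = ρ (io (ep v C) (MvPolynomial.X c))
    unfold io
    rw [MvPolynomial.coe_eval₂Hom, MvPolynomial.eval₂_X]
    show _ = ρ (MonoidAlgebra.single (QuotientGroup.mk' (HH v)
      (Multiplicative.ofAdd (ext0 C (Pi.single c 1)))) 1)
    rw [ext0_single]

theorem mem_HH {g : Zm n} (hg : g ∈ HH v) : ∃ b : Fin m → ℤ,
    Multiplicative.toAdd g = ∑ j, b j • v j := by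
  unfold HH at hg
  induction hg using Subgroup.closure_induction with
  | mem x hx =>
    obtain ⟨j, rfl⟩ := hx
    refine ⟨Pi.single j 1, ?_⟩
    rw [Finset.sum_eq_single j]
    · simp
    · intro b _ hb
      simp [hb]
    · simp
  | one => exact ⟨0, by simp⟩
  | mul a b _ _ ha hb =>
    obtain ⟨a', ha'⟩ := ha
    obtain ⟨b', hb'⟩ := hb
    refine ⟨a' + b', ?_⟩
    rw [toAdd_mul, ha', hb', ← Finset.sum_add_distrib]
    refine Finset.sum_congr rfl (fun j _ => ?_)
    rw [Pi.add_apply, add_smul]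
  | inv a _ ha =>
    obtain ⟨a', ha'⟩ := ha
    refine ⟨-a', ?_⟩
    rw [toAdd_inv, ha', ← Finset.sum_neg_distrib]
    refine Finset.sum_congr rfl (fun j _ => ?_)
    rw [Pi.neg_apply, neg_smul]

theorem ext0_sum (w : {c // c ∈ C} → ℤ) : ext0 C w = ∑ c, w c • (Pi.single c.1 1 : Fin n → ℤ) := by
  have h1 : w = ∑ c, w c • (Pi.single c 1 : {c // c ∈ C} → ℤ) := by
    funext c
    rw [Finset.sum_apply]
    simp [Pi.single_apply]
  conv_lhs => rw [h1]
  rw [map_sum]
  refine Finset.sum_congr rfl (fun c _ => ?_)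
  rw [map_zsmul, ext0_single]

theorem ep_inj (hC : IsC v C) : Function.Injective (ep v C) := by
  rw [injective_iff_map_eq_one]
  intro w hw
  have h1 : Multiplicative.ofAdd (ext0 C (Multiplicative.toAdd w)) ∈ HH v :=
    (QuotientGroup.eq_one_iff _).1 hw
  obtain ⟨b, hb⟩ := mem_HH v h1
  rw [toAdd_ofAdd, ext0_sum] at hb
  have h2 := Fintype.linearIndependent_iff.1 hC.2
    (Sum.elim b (fun c => -(Multiplicative.toAdd w c))) (by
      rw [Fintype.sum_sum_type]
      simp only [Sum.elim_inl, Sum.elim_inr, neg_smul, Finset.sum_neg_distrib]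
      rw [← hb, add_neg_cancel])
  apply Multiplicative.toAdd.injective
  funext c
  have h3 := h2 (Sum.inr c)
  simp only [Sum.elim_inr, neg_eq_zero] at h3
  exact h3

end TF

open TF in
theorem taskTFALG : TaskTFALG := by
  classical
  intro n m v C R hC hR N u c hu hinj hc x α hx
  have hε := ep_inj v C hC
  -- the point condition
  have hR' : ∀ (K : Type) [Field K] (ρ : MonoidAlgebra ℤ (AA v) →+* K)
      (f : MvPolynomial {c // c ∈ C} ℤ), Irreducible f →
      RingHom.ker (ρ.comp (io (ep v C))) = Ideal.span {f} →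
        LinearIndependent K (fun j => fun l => ρ (pr v (R j l))) := by
    intro K _ ρ f hf hker
    have h1 := hR K (fun l => ptH v ρ (zb l)) (fun j => by
      rw [mon_eq]
      apply Units.ext
      rw [ptH_val]
      have h2 : QuotientGroup.mk' (HH v) (Multiplicative.ofAdd (v j)) = 1 :=
        (QuotientGroup.eq_one_iff _).2 (Subgroup.subset_closure ⟨j, rfl⟩)
      rw [h2]
      exact map_one ρ) ⟨f, hf, by rw [evC_eq]; exact hker⟩
    have h2 : (fun j => fun l => evl (fun l => ptH v ρ (zb l)) (R j l)) =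
        fun j => fun l => ρ (pr v (R j l)) := by
      funext j l
      exact evl_eq v ρ _
    rwa [h2] at h1
  -- the polynomial
  obtain ⟨D0, hD0⟩ : ∃ D0 : ℕ, ∀ s l, -(D0 : ℤ) ≤ u s l := by
    refine ⟨∑ s, ∑ l, (u s l).natAbs, fun s l => ?_⟩
    have h1 : (u s l).natAbs ≤ ∑ s, ∑ l, (u s l).natAbs := by
      refine le_trans ?_ (Finset.single_le_sum (f := fun s => ∑ l, (u s l).natAbs)
        (fun _ _ => Nat.zero_le _) (Finset.mem_univ s))
      exact Finset.single_le_sum (f := fun l => (u s l).natAbs) (fun _ _ => Nat.zero_le _)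
        (Finset.mem_univ l)
    omega
  let k : Fin N → ({c // c ∈ C} →₀ ℕ) := fun s =>
    Finsupp.equivFunOnFinite.symm fun d => (u s d.1 + D0).toNat
  have hkv : ∀ s d, ((k s d : ℕ) : ℤ) = u s d.1 + D0 := by
    intro s d
    have := hD0 s d.1
    simp only [k, Finsupp.equivFunOnFinite_symm_apply_apply]
    omega
  have hkinj : Function.Injective k := by
    intro s s' h
    apply hinj
    funext l
    by_cases hl : l ∈ C
    · have h1 := hkv s ⟨l, hl⟩
      have h2 := hkv s' ⟨l, hl⟩
      rw [h] at h1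
      simp only at h1 h2
      linarith
    · rw [hu s l hl, hu s' l hl]
  let a0 : MvPolynomial {c // c ∈ C} ℤ := ∑ s, MvPolynomial.monomial (k s) (c s)
  have ha0 : a0 ≠ 0 := by
    obtain ⟨s0, hs0⟩ := hc
    intro h
    have h1 : a0.coeff (k s0) = 0 := by rw [h, MvPolynomial.coeff_zero]
    rw [MvPolynomial.coeff_sum, Finset.sum_eq_single s0] at h1
    · rw [MvPolynomial.coeff_monomial, if_pos rfl] at h1
      exact hs0 h1
    · intro s _ hs
      rw [MvPolynomial.coeff_monomial, if_neg (fun h2 => hs (hkinj h2))]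
    · intro h2
      exact absurd (Finset.mem_univ _) h2
  let W : AA v := QuotientGroup.mk' (HH v) (Multiplicative.ofAdd (ext0 C (fun _ => (D0 : ℤ))))
  have hio : io (ep v C) a0 = mx W * pr v (∑ s, c s • X (u s)) := by
    rw [map_sum, map_sum, Finset.mul_sum]
    refine Finset.sum_congr rfl (fun s _ => ?_)
    rw [io_monomial]
    have h1 : c s • X (u s) = MonoidAlgebra.single (Multiplicative.ofAdd (u s)) (c s) := by
      show c s • MonoidAlgebra.single (Multiplicative.ofAdd (u s)) (1 : ℤ) = _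
      rw [MonoidAlgebra.smul_single, smul_eq_mul, mul_one]
    rw [h1, pr_single, MonoidAlgebra.single_mul_single, one_mul]
    congr 1
    show ep v C (Multiplicative.ofAdd fun d => ((k s d : ℕ) : ℤ)) = W * _
    show QuotientGroup.mk' (HH v) (Multiplicative.ofAdd (ext0 C (fun d => ((k s d : ℕ) : ℤ)))) =
      QuotientGroup.mk' (HH v) (Multiplicative.ofAdd (ext0 C (fun _ => (D0 : ℤ)))) *
        QuotientGroup.mk' (HH v) (Multiplicative.ofAdd (u s))
    rw [← map_mul, ← ofAdd_add]
    congr 2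
    funext l
    show (if h : l ∈ C then ((k s ⟨l, h⟩ : ℕ) : ℤ) else 0) =
      (if h : l ∈ C then (D0 : ℤ) else 0) + u s l
    by_cases hl : l ∈ C
    · rw [dif_pos hl, dif_pos hl, hkv]
      ring
    · rw [dif_neg hl, dif_neg hl, hu s l hl, add_zero]
  obtain ⟨y', hy'⟩ := Pool.Agent.H227R3.RM.saturation (ep v C) hε (fun j l => pr v (R j l)) hR' a0
    ha0 (fun l => pr v (x l)) (fun j => mx W * pr v (α j)) (fun l => by
      have h1 := pr_mem v (hx l)
      rw [map_sub, map_mul, map_sum (pr v) (fun j => α j * R j l), sub_eq_zero] at h1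
      rw [hio, mul_assoc, h1, Finset.mul_sum]
      refine Finset.sum_congr rfl (fun j _ => ?_)
      rw [map_mul]
      ring)
  choose β hβ using fun j => pr_surj v (y' j)
  refine ⟨β, fun l => mem_of_pr v ?_⟩
  rw [map_sub, map_sum, hy' l, sub_eq_zero]
  refine Finset.sum_congr rfl (fun j _ => ?_)
  rw [map_mul, hβ]

end Pool.Agent.H577R3.RM
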